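import Pool.Agent.helper7.RC.Defs

/-!
# Absolute retracts exist

If all subdirectly irreducible members of the variety have cardinality less than the continuum, then every one of them
embeds in an absolute retract.  The extensions are coded by multiplication tables on sets of natural numbers; a maximal
table exists by Zorn's lemma, unions of chains are direct limits.
-/

namespace Pool.Agent.helper80.RC

open Pool.Agent.helper80.RSV Pool.Agent.helper7.RC Function

/-- the carrier of the tables -/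
abbrev S : Type := Set ℕ

/-- `M` is the table of the group `E` embedded in `S` by `e` -/
def TabOf {E : Type} [Group E] (e : E → S) (M : Set (S × S × S)) : Prop :=
  ∀ s t u, (s, t, u) ∈ M ↔ ∃ x y : E, e x = s ∧ e y = t ∧ e (x * y) = u

/-- `M` is the table of an extension of `G` -/
def IsTab (W : Set (FreeGroup ℕ)) {G : Type} [Group G] (a : G) (e0 : G → S) (M : Set (S × S × S)) : Prop :=
  ∃ (E : Type) (_ : Group E) (ι : G →* E) (e : E → S), Injective e ∧ (∀ x, e (ι x) = e0 x) ∧ Sat W E ∧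
    ASI (ι a) ∧ TabOf e M

theorem tab_hom {E E' : Type} [Group E] [Group E'] {e : E → S} {e' : E' → S} (he' : Injective e')
    {M M' : Set (S × S × S)} (hM : TabOf e M) (hM' : TabOf e' M') (h : M ⊆ M') :
    ∃ φ : E →* E', ∀ x, e' (φ x) = e x := by
  have h1 : ∀ x : E, ∃ x' : E', e' x' = e x := by
    intro x
    have h2 : (e x, e x, e (x * x)) ∈ M := (hM _ _ _).mpr ⟨x, x, rfl, rfl, rfl⟩
    obtain ⟨x', _, h3, _, _⟩ := (hM' _ _ _).mp (h h2)
    exact ⟨x', h3⟩
  choose φ hφ using h1
  refine ⟨MonoidHom.mk' φ fun x y => ?_, hφ⟩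
  have h2 : (e x, e y, e (x * y)) ∈ M := (hM _ _ _).mpr ⟨x, y, rfl, rfl, rfl⟩
  obtain ⟨x', y', h3, h4, h5⟩ := (hM' _ _ _).mp (h h2)
  have h6 : x' = φ x := he' (h3.trans (hφ x).symm)
  have h7 : y' = φ y := he' (h4.trans (hφ y).symm)
  subst h6 h7
  exact he' ((hφ (x * y)).trans h5.symm)

/-- the union of a chain of tables is a table -/
theorem chain_tab {W : Set (FreeGroup ℕ)} {G : Type} [Group G] {a : G} {e0 : G → S}
    {c : Set (Set (S × S × S))} (hc : ∀ M ∈ c, IsTab W a e0 M) (hch : IsChain (· ⊆ ·) c) (hne : c.Nonempty) :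
    IsTab W a e0 (⋃₀ c) := by
  classical
  have h : ∀ i : c, IsTab W a e0 i.1 := fun i => hc i.1 i.2
  choose E hG ι e he hι hS hA hM using h
  have hφ : ∀ i j : c, i ≤ j → ∃ φ : E i →* E j, ∀ x, e j (φ x) = e i x :=
    fun i j hij => tab_hom (he j) (hM i) (hM j) hij
  choose φ hφ using hφ
  have hds : DirectedSystem E (fun i j h => φ i j h) :=
    ⟨fun i x => he i (hφ i i le_rfl x), fun k j i hij hjk x => he k (by rw [hφ, hφ, hφ])⟩
  have : IsDirectedOrder c := ⟨fun i j => by
    rcases hch.total i.2 j.2 with h | h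
    · exact ⟨j, h, le_rfl⟩
    · exact ⟨i, le_rfl, h⟩⟩
  have hcn : Nonempty c := hne.to_subtype
  obtain ⟨i0, -⟩ : ∃ _ : c, True := ⟨Classical.choice hcn, trivial⟩
  -- the maps into the limit
  let of : ∀ i : c, E i →* DirectLimit E φ := fun i =>
    MonoidHom.mk' (fun x => ⟦⟨i, x⟩⟧) fun x y => (DirectLimit.mul_def (f := φ) i x y).symm
  have hof : ∀ i x, of i x = ⟦⟨i, x⟩⟧ := fun _ _ => rfl
  have hofle : ∀ i j (h : i ≤ j) x, of j (φ i j h x) = of i x := fun i j h x =>
    DirectLimit.mk_apply (f := φ) i j x h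
  have hsurj : ∀ z : DirectLimit E φ, ∃ i x, z = of i x := fun z => DirectLimit.exists_eq_mk φ z
  let eL : DirectLimit E φ → S := DirectLimit.lift φ (fun i => e i) fun i j h x => by
    exact (hφ i j h x).symm
  have heL : ∀ i x, eL (of i x) = e i x := fun _ _ => rfl
  have heLinj : Injective eL := DirectLimit.lift_injective _ _ _ fun i => he i
  have hofinj : ∀ i, Injective (of i) := fun i x y hxy => he i (by rw [← heL, ← heL, hxy])
  have hofι : ∀ i x, of i (ι i x) = of i0 (ι i0 x) := fun i x => heLinj (by rw [heL, heL, hι, hι])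
  refine ⟨DirectLimit E φ, inferInstance, (of i0).comp (ι i0), eL, heLinj, fun x => ?_, ?_, ?_, ?_⟩
  · show eL (of i0 (ι i0 x)) = e0 x
    rw [heL, hι]
  · intro w hw f
    obtain ⟨k, hk⟩ := exists_bound w
    have h1 : ∀ m : ℕ, ∃ i, ∃ g : ℕ → E i, ∀ n < m, f n = of i (g n) := by
      intro m
      induction m with
      | zero => exact ⟨i0, fun _ => 1, fun n hn => absurd hn (Nat.not_lt_zero n)⟩
      | succ m ih =>
        obtain ⟨i, g, hg⟩ := ih
        obtain ⟨j, x, hx⟩ := hsurj (f m)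
        obtain ⟨l, hil, hjl⟩ := exists_ge_ge i j
        refine ⟨l, fun n => if n < m then φ i l hil (g n) else φ j l hjl x, fun n hn => ?_⟩
        by_cases hnm : n < m
        · simp only [hnm, if_true]
          rw [hofle, hg n hnm]
        · have h2 : n = m := by omega
          subst h2
          simp only [lt_irrefl, if_false]
          rw [hofle, hx]
    obtain ⟨i, g, hg⟩ := h1 k
    rw [hk (DirectLimit E φ) f (fun n => of i (g n)) hg]
    have h2 := map_lift (of i) g w
    have h3 := hS i w hw g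
    rw [h3, map_one] at h2
    exact h2.symm
  · refine ⟨fun h1 => ?_, fun N hN hne => ?_⟩
    · have h2 : of i0 (ι i0 a) = of i0 1 := by rw [map_one]; exact h1
      exact (hA i0).1 (hofinj i0 h2)
    · obtain ⟨z, hz, hz1⟩ : ∃ z ∈ N, z ≠ 1 := by
        by_contra hcon
        push Not at hcon
        exact hne ((Subgroup.eq_bot_iff_forall N).mpr hcon)
      obtain ⟨i, x, rfl⟩ := hsurj z
      have := hN
      have h1 : ι i a ∈ N.comap (of i) := by
        refine (hA i).2 _ inferInstance fun hb => ?_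
        have h2 : x ∈ N.comap (of i) := hz
        rw [hb, Subgroup.mem_bot] at h2
        exact hz1 (by rw [h2, map_one])
      have h2 : of i (ι i a) ∈ N := h1
      rw [hofι] at h2
      exact h2
  · intro s t u
    rw [Set.mem_sUnion]
    constructor
    · rintro ⟨M, hMc, hm⟩
      obtain ⟨x, y, h1, h2, h3⟩ := (hM ⟨M, hMc⟩ s t u).mp hm
      refine ⟨of ⟨M, hMc⟩ x, of ⟨M, hMc⟩ y, h1, h2, ?_⟩
      rw [← map_mul]
      exact h3
    · rintro ⟨x, y, h1, h2, h3⟩
      obtain ⟨i, x, rfl⟩ := hsurj x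
      obtain ⟨j, y, rfl⟩ := hsurj y
      obtain ⟨l, hil, hjl⟩ := exists_ge_ge i j
      refine ⟨l.1, l.2, (hM l s t u).mpr ⟨φ i l hil x, φ j l hjl y, ?_, ?_, ?_⟩⟩
      · rw [hφ, ← h1, heL]
      · rw [hφ, ← h2, heL]
      · rw [← heL, map_mul, hofle, hofle, h3]

theorem exists_AR {W : Set (FreeGroup ℕ)} (hc : SmallSI W) {G : Type} [Group G] (hG : Sat W G)
    {a : G} (ha : ASI a) :
    ∃ (E : Type) (_ : Group E) (ι : G →* E), Function.Injective ι ∧ Sat W E ∧ ASI (ι a) ∧
      AR W E (ι a) := by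
  classical
  have hS : Cardinal.mk S = Cardinal.continuum := Cardinal.mk_set_nat
  have hcard : ∀ (E : Type) [Group E] (b : E), Sat W E → ASI b → Cardinal.mk E < Cardinal.mk S := by
    intro E _ b hE hb
    rw [hS]
    exact hc E hE hb.subdirIrr
  obtain ⟨e0⟩ : Nonempty (G ↪ S) := Cardinal.le_def _ _ |>.mp (hcard G a hG ha).le
  have hbase : IsTab W a e0 {m | ∃ x y : G, m = (e0 x, e0 y, e0 (x * y))} := by
    refine ⟨G, inferInstance, MonoidHom.id G, e0, e0.injective, fun _ => rfl, hG, ha, fun s t u => ?_⟩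
    constructor
    · rintro ⟨x, y, h⟩
      rw [Prod.mk.injEq, Prod.mk.injEq] at h
      exact ⟨x, y, h.1.symm, h.2.1.symm, h.2.2.symm⟩
    · rintro ⟨x, y, rfl, rfl, rfl⟩
      exact ⟨x, y, rfl⟩
  obtain ⟨M, -, hmax⟩ := zorn_subset_nonempty {M | IsTab W a e0 M}
    (fun c hcs hch hne => ⟨⋃₀ c, chain_tab (fun M hM => hcs hM) hch hne, fun s hs => Set.subset_sUnion_of_mem hs⟩)
    _ hbase
  obtain ⟨E, hEG, ι, e, he, hι, hE, hA, hM⟩ := hmax.prop
  refine ⟨E, hEG, ι, fun x y hxy => e0.injective (by rw [← hι, ← hι, hxy]), hE, hA, ?_⟩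
  intro H _ hH j N hN haN
  obtain ⟨N', hN', hNN', haN', hmaxN⟩ := exists_max_avoid hN haN
  have := hN'
  have hQ : Sat W (H ⧸ N') := hH.quotient N'
  have hQA : ASI ((QuotientGroup.mk' N') (j (ι a))) := aSI_quotient haN' hmaxN
  let k : E →* H ⧸ N' := (QuotientGroup.mk' N').comp j
  have hkinj : Injective k := by
    rw [← MonoidHom.ker_eq_bot_iff]
    by_contra hne
    have h1 := hA.2 k.ker inferInstance hne
    exact hQA.1 h1
  have hksurj : Surjective k := by
    have h1 : Cardinal.mk (H ⧸ N') < Cardinal.mk S := hcard _ _ hQ hQA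
    have h2 : Cardinal.mk (Set.range e) < Cardinal.mk S := by
      rw [Cardinal.mk_range_eq e he]
      exact hcard E _ hE hA
    have h3 : Cardinal.mk ((Set.range e)ᶜ : Set S) = Cardinal.mk S := Cardinal.mk_compl_of_infinite _ h2
    obtain ⟨g⟩ : Nonempty ((H ⧸ N') ↪ ((Set.range e)ᶜ : Set S)) :=
      Cardinal.le_def _ _ |>.mp (by rw [h3]; exact h1.le)
    let e' : H ⧸ N' → S := fun q => if h : ∃ x, k x = q then e h.choose else (g q).1
    have he'1 : ∀ x, e' (k x) = e x := by
      intro x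
      have h : ∃ y, k y = k x := ⟨x, rfl⟩
      show (if h : ∃ y, k y = k x then e h.choose else (g (k x)).1) = e x
      rw [dif_pos h]
      exact congrArg e (hkinj h.choose_spec)
    have he'2 : ∀ q, (¬ ∃ x, k x = q) → e' q = (g q).1 := by
      intro q h
      show (if h : ∃ y, k y = q then e h.choose else (g q).1) = (g q).1
      rw [dif_neg h]
    have he' : Injective e' := by
      intro p q hpq
      by_cases hp : ∃ x, k x = p <;> by_cases hq : ∃ x, k x = q
      · obtain ⟨x, rfl⟩ := hp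
        obtain ⟨y, rfl⟩ := hq
        rw [he'1, he'1] at hpq
        rw [he hpq]
      · obtain ⟨x, rfl⟩ := hp
        rw [he'1, he'2 q hq] at hpq
        exact absurd ⟨x, hpq⟩ (g q).2
      · obtain ⟨y, rfl⟩ := hq
        rw [he'1, he'2 p hp] at hpq
        exact absurd ⟨y, hpq.symm⟩ (g p).2
      · rw [he'2 p hp, he'2 q hq] at hpq
        exact g.injective (Subtype.ext hpq)
    let M' : Set (S × S × S) := {m | ∃ x y : H ⧸ N', m = (e' x, e' y, e' (x * y))}
    have hM' : TabOf e' M' := by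
      intro s t u
      constructor
      · rintro ⟨x, y, h⟩
        rw [Prod.mk.injEq, Prod.mk.injEq] at h
        exact ⟨x, y, h.1.symm, h.2.1.symm, h.2.2.symm⟩
      · rintro ⟨x, y, rfl, rfl, rfl⟩
        exact ⟨x, y, rfl⟩
    have hT : IsTab W a e0 M' := ⟨H ⧸ N', inferInstance, k.comp ι, e', he', fun x => by
      rw [MonoidHom.comp_apply, he'1, hι], hQ, hQA, hM'⟩
    have hle : M ⊆ M' := by
      rintro ⟨s, t, u⟩ hm
      obtain ⟨x, y, rfl, rfl, rfl⟩ := (hM s t u).mp hm
      refine (hM' _ _ _).mpr ⟨k x, k y, he'1 x, he'1 y, ?_⟩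
      rw [← map_mul, he'1]
    have hge : M' ⊆ M := hmax.2 hT hle
    intro q
    have h4 : (e' q, e' q, e' (q * q)) ∈ M := hge ⟨q, q, rfl⟩
    obtain ⟨x, -, h5, -, -⟩ := (hM _ _ _).mp h4
    by_contra hq
    rw [he'2 q hq] at h5
    exact (g q).2 ⟨x, h5⟩
  let ke := MulEquiv.ofBijective k ⟨hkinj, hksurj⟩
  refine ⟨ke.symm.toMonoidHom.comp (QuotientGroup.mk' N'), fun x => ?_, fun x hx => ?_⟩
  · show ke.symm (k x) = x
    exact ke.symm_apply_apply x
  · show ke.symm ((QuotientGroup.mk' N') x) = 1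
    have h1 : (QuotientGroup.mk' N') x = 1 := (QuotientGroup.eq_one_iff x).mpr (hNN' hx)
    rw [h1, map_one]

end Pool.Agent.helper80.RC
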