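import Pool.Agent.helper7.RC.Defs

/-!
# A subgroup outside which `a` is a bounded product has finite index
-/

namespace Pool.Agent.helper80.RC

open Pool.Agent.helper80.RSV Pool.Agent.helper7.RC Function

theorem finiteIndex_of_U {W : Set (FreeGroup ℕ)} (hc : SmallSI W) {E : Type} [Group E] {a : E}
    (hE : Sat W E) (ha : a ≠ 1) {C : Subgroup E} {k : ℕ} (hk : ∀ y, y ∉ C → a ∈ Ncl k y) :
    C.FiniteIndex := by
  classical
  by_contra hfin
  have hinf : Infinite (E ⧸ C) := by
    rw [← not_finite_iff_infinite]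
    intro hf
    exact hfin (Subgroup.finiteIndex_of_finite_quotient)
  obtain ⟨c⟩ : Nonempty (ℕ ↪ E ⧸ C) := ⟨Infinite.natEmbedding _⟩
  -- representatives of distinct cosets
  let d : ℕ → E := fun n => (c n).out
  have hd : ∀ m n, m ≠ n → (d m)⁻¹ * d n ∉ C := by
    intro m n hmn h
    apply hmn
    apply c.injective
    have h1 : (QuotientGroup.mk (d m) : E ⧸ C) = QuotientGroup.mk (d n) := QuotientGroup.eq.mpr h
    rwa [QuotientGroup.out_eq', QuotientGroup.out_eq'] at h1
  -- codes of initial segments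
  let seg : (ℕ → Bool) → ℕ → ℕ := fun f n => Encodable.encode (List.ofFn fun i : Fin n => f i)
  have hseg : ∀ f g : ℕ → Bool, f ≠ g → ∃ m, ∀ n, m ≤ n → seg f n ≠ seg g n := by
    intro f g hfg
    obtain ⟨i, hi⟩ : ∃ i, f i ≠ g i := by
      by_contra hcon
      push Not at hcon
      exact hfg (funext hcon)
    refine ⟨i + 1, fun n hn he => hi ?_⟩
    have h1 : (List.ofFn fun i : Fin n => f i) = List.ofFn fun i : Fin n => g i := Encodable.encode_injective he
    have h2 := List.ofFn_injective h1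
    exact congrFun h2 ⟨i, by omega⟩
  let x : (ℕ → Bool) → (ℕ → E) := fun f n => d (seg f n)
  have hN0 := Ev_normal (fun _ : ℕ => E)
  have haN0 : (fun _ => a : ℕ → E) ∉ Ev (fun _ : ℕ => E) := by
    rintro ⟨m, hm⟩
    exact ha (hm m le_rfl)
  obtain ⟨N, hN, hN0N, haN, hmax⟩ := exists_max_avoid hN0 haN0
  have := hN
  have hQ : Sat W ((ℕ → E) ⧸ N) := (Sat.pi fun _ => hE).quotient N
  have hSI : SubdirIrr ((ℕ → E) ⧸ N) := subdirIrr_quotient haN hmax
  have hlt := hc _ hQ hSI
  have hinj : Injective fun f : ℕ → Bool => (QuotientGroup.mk (x f) : (ℕ → E) ⧸ N) := by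
    intro f g hfg
    by_contra hne
    apply haN
    have h1 : (x f)⁻¹ * x g ∈ N := QuotientGroup.eq.mp hfg
    obtain ⟨m, hm⟩ := hseg f g hne
    have h2 : ∀ n, m ≤ n → a ∈ Ncl k (((x f)⁻¹ * x g) n) := fun n hn => hk _ (hd _ _ (hm n hn))
    -- a sequence in `Ncl k`
    let b : ℕ → E := fun n => if m ≤ n then a else 1
    have h3 : b ∈ Ncl k ((x f)⁻¹ * x g) := by
      have h4 : ∀ (l : ℕ) (y : ℕ → E) (z : ℕ → E), (∀ n, z n ∈ Ncl l (y n)) → z ∈ Ncl l y := by
        intro l
        induction l with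
        | zero =>
          intro y z hz
          show z = 1
          funext n
          exact hz n
        | succ l ih =>
          intro y z hz
          have h5 : ∀ n, ∃ g h w : E, w ∈ Ncl l (y n) ∧
              z n = h * ((y n)⁻¹ * (g * y n * g⁻¹)) * h⁻¹ * w := by
            intro n
            obtain ⟨p, ⟨g, h, hp⟩, w, hw, hz'⟩ := hz n
            exact ⟨g, h, w, hw, by rw [hz', hp]⟩
          choose g h w hw hz' using h5
          exact ⟨h * (y⁻¹ * (g * y * g⁻¹)) * h⁻¹, ⟨g, h, rfl⟩, w, ih y w hw, funext hz'⟩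
      refine h4 k _ b fun n => ?_
      show (if m ≤ n then a else 1) ∈ _
      by_cases hmn : m ≤ n
      · rw [if_pos hmn]; exact h2 n hmn
      · rw [if_neg hmn]; exact one_mem_Ncl _ _
    have h5 : b ∈ N := Ncl_sub_normal hN h1 h3
    have h6 : b⁻¹ * (fun _ => a) ∈ N := by
      apply hN0N
      refine ⟨m, fun n hn => ?_⟩
      show (b n)⁻¹ * a = 1
      show (if m ≤ n then a else 1)⁻¹ * a = 1
      rw [if_pos hn, inv_mul_cancel]
    have h7 := N.mul_mem h5 h6
    rwa [mul_inv_cancel_left] at h7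
  have h8 : Cardinal.continuum ≤ Cardinal.mk ((ℕ → E) ⧸ N) := by
    have h9 := Cardinal.mk_le_of_injective hinj
    rw [← Cardinal.power_def, Cardinal.mk_bool, Cardinal.mk_nat, Cardinal.two_power_aleph0] at h9
    exact h9
  exact absurd hlt (not_lt.mpr h8)

end Pool.Agent.helper80.RC
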